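import Pool.Agent.H.MP_5904a2_co.Defs

namespace Pool.Agent.H.MP_5904a2_co
open Finset

section
variable {V : Type} [DecidableEq V] {R : V → ℕ → V → Prop}

lemma force_le {m : ℕ} (U : Finset V) (hU : ∀ u ∈ U, ∀ l, 1 ≤ l → (∃ x, R u l x) → ∃ x ∈ U, R u l x)
    {S : Finset V} {u : V} (h : Force R m S u) : S ⊆ U → u ∈ U → m ≤ #U := by
  induction h with
  | done S u h => exact fun g _ => h.trans (card_le_card g)
  | step S u l h1 h2 _ ih =>
    intro g1 g2
    obtain ⟨x, k1, k2⟩ := hU u g2 l h1 h2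
    exact ih x k2 (insert_subset k1 g1) k1

lemma le_value [Fintype V] {m : ℕ} {v : V} (h : Force R m {v} v) : m ≤ value R v :=
  le_csSup ⟨_, fun _ g => force_le univ (fun _ _ _ _ ⟨x, k⟩ => ⟨x, mem_univ _, k⟩) g
    (subset_univ _) (mem_univ _)⟩ h

lemma value_le (U : Finset V) (hU : ∀ u ∈ U, ∀ l, 1 ≤ l → (∃ x, R u l x) → ∃ x ∈ U, R u l x)
    {v : V} (h : v ∈ U) : value R v ≤ #U :=
  csSup_le' fun _ g => force_le U hU g (singleton_subset_iff.2 h) h

lemma mkwalk (G : SimpleGraph V) (l : ℕ) : ∀ f : ℕ → V, (∀ t < l, G.Adj (f t) (f (t + 1))) →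
    ∃ p : G.Walk (f 0) (f l), p.length = l ∧ ∀ t ≤ l, p.getVert t = f t := by
  induction l with
  | zero => exact fun f _ => ⟨.nil, rfl, fun t h => by simp [Nat.le_zero.1 h]⟩
  | succ l ih =>
    intro f h
    obtain ⟨p, h1, h2⟩ := ih (fun t => f (t + 1)) fun t g => h _ (by omega)
    refine ⟨.cons (h 0 (by omega)) p, by simp [h1], fun t g => ?_⟩
    cases t with
    | zero => simp
    | succ t => simpa using h2 t (by omega)

end

lemma exit (P : ℕ → Prop) (a b : ℕ) (h : a ≤ b) (ha : P a) (hb : ¬ P b) :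
    ∃ t, a ≤ t ∧ t < b ∧ P t ∧ ¬ P (t + 1) := by
  induction b, h using Nat.le_induction with
  | base => exact absurd ha hb
  | succ b h ih =>
    by_cases g : P b
    · exact ⟨b, h, by omega, g, hb⟩
    · obtain ⟨t, h1, h2, h3⟩ := ih g
      exact ⟨t, h1, by omega, h3⟩

def A (k a b c d : ℕ) : Prop := ¬ (a = c ∧ b = d) ∧ ((b = 0 ∧ d = 0) ∨
  (a = c ∧ (b = 0 ∨ d = 0 ∨ (b ≤ k ∧ d ≤ k) ∨ (k < b ∧ k < d))) ∨
  (d = 0 ∧ b ≤ k ∧ (c = a + 1 ∨ (a + 1 = k ∧ c = 0))) ∨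
  (b = 0 ∧ d ≤ k ∧ (a = c + 1 ∨ (c + 1 = k ∧ a = 0))))

lemma A.symm {k a b c d : ℕ} (h : A k a b c d) : A k c d a b := by unfold A at *; omega

structure Pa (k l : ℕ) (a b : ℕ → ℕ) : Prop where
  adj : ∀ t < l, A k (a t) (b t) (a (t + 1)) (b (t + 1))
  inj : ∀ s t, s ≤ l → t ≤ l → a s = a t → b s = b t → s = t
  mem : ∀ t ≤ l, a t < k ∧ a t + b t ≤ 3 * k

variable {k l : ℕ} {a b : ℕ → ℕ}

lemma Pa.rev (h : Pa k l a b) : Pa k l (fun t => a (l - t)) fun t => b (l - t) :=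
  ⟨fun t g => by
    have := (h.adj (l - (t + 1)) (by omega)).symm
    rwa [show l - (t + 1) + 1 = l - t by omega] at this,
   fun s t g1 g2 g3 g4 => by have := h.inj _ _ (by omega) (by omega) g3 g4; omega,
   fun t _ => h.mem _ (by omega)⟩

lemma Pa.only (h : Pa k l a b) (s : ℕ) (hs : s ≤ l) (hb : k < b s) :
    (a 0 = a s ∧ k < b 0) ∨ (a l = a s ∧ k < b l) := by
  by_contra g
  obtain ⟨t, h1, h2, h3, h4⟩ := exit (fun t => a t = a s ∧ k < b t) s l hs ⟨rfl, hb⟩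
    fun e => g (Or.inr e)
  obtain ⟨r, k1, k2, k3, k4⟩ := exit (fun t => ¬ (a t = a s ∧ k < b t)) 0 s (Nat.zero_le _)
    (fun e => g (Or.inl e)) (not_not.2 ⟨rfl, hb⟩)
  have e1 := h.adj t h2
  have e2 := h.adj r (by omega)
  unfold A at e1 e2
  have := h.inj r (t + 1) (by omega) (by omega) (by omega) (by omega)
  omega

lemma Pa.pass (h : Pa k l a b) (h0 : k < b 0) (hl : k < b l) (s : ℕ) (hs : s ≤ l) (h1 : 0 < b s)
    (h2 : b s ≤ k) (w : ℕ) (hw : w = a s ∨ w = a s + 1 ∨ (a s + 1 = k ∧ w = 0)) (hk : w < k) :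
    ∃ t r, t ≤ l ∧ a t = w ∧ b t = 0 ∧ (r = t + 1 ∨ r + 1 = t) ∧ a r = a s ∧ 0 < b r ∧
      b r ≤ k := by
  obtain ⟨t, g1, g2, g3, g4⟩ := exit (fun t => a t = a s ∧ 0 < b t ∧ b t ≤ k) s l hs ⟨rfl, h1, h2⟩
    (by omega)
  obtain ⟨r, k1, k2, k3, k4⟩ := exit (fun t => ¬ (a t = a s ∧ 0 < b t ∧ b t ≤ k)) 0 s
    (Nat.zero_le _) (by omega) (not_not.2 ⟨rfl, h1, h2⟩)
  have e1 := h.adj t g2
  have e2 := h.adj r (by omega)
  have e3 := h.inj r (t + 1) (by omega) (by omega)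
  have e4 := h.mem r (by omega)
  have e5 := h.mem (t + 1) (by omega)
  unfold A at e1 e2
  by_cases e : a r = w
  · exact ⟨r, r + 1, by omega, e, by omega, by omega, by omega, by omega, by omega⟩
  · exact ⟨t + 1, t, by omega, by omega, by omega, by omega, by omega, by omega, by omega⟩

lemma Pa.miss (h : Pa k l a b) (hk : 2 ≤ k) (h0 : k < b 0) (hl : k < b l) (hn : a 0 ≠ a l) :
    ∃ c < k, (c = a 0 ∨ c + 1 = a 0 ∨ (c + 1 = k ∧ a 0 = 0)) ∧
      ∀ s ≤ l, ¬ (a s = c ∧ 0 < b s ∧ b s ≤ k) := by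
  by_contra g
  push Not at g
  have m := (h.mem 0 (Nat.zero_le _)).1
  obtain ⟨s, h1, h2, h3, h4⟩ := g (a 0) m (Or.inl rfl)
  obtain ⟨s', k1, k2, k3, k4⟩ := g (if a 0 = 0 then k - 1 else a 0 - 1) (by split_ifs <;> omega)
    (by split_ifs <;> omega)
  obtain ⟨t, r, e1, e2, e3, e4, e5, e6, e7⟩ := h.pass h0 hl s h1 h3 h4 (a 0) (by omega) m
  obtain ⟨t', r', f1, f2, f3, f4, f5, f6, f7⟩ := h.pass h0 hl s' k1 k3 k4 (a 0)
    (by split_ifs at k2 <;> omega) m
  obtain ⟨x, g1, g2, g3, g4⟩ := exit (fun t => a t = a 0 ∧ k < b t) 0 l (Nat.zero_le _) ⟨rfl, h0⟩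
    fun e => hn e.1.symm
  have e := h.adj x g2
  unfold A at e
  obtain rfl := h.inj t t' e1 f1 (by omega) (by omega)
  obtain rfl := h.inj t (x + 1) e1 (by omega) (by omega) (by omega)
  have : r ≠ x := by rintro rfl; omega
  have : r' ≠ x := by rintro rfl; omega
  have : r ≠ r' := by rintro rfl; split_ifs at k2 <;> omega
  omega

lemma Pa.card (h : Pa k l a b) (Z : Finset ℕ) (hZ : Z ⊆ range k) (J : Finset ℕ)
    (h1 : ∀ s ≤ l, ¬ (a s ∈ Z ∧ 0 < b s ∧ b s ≤ k)) (h2 : ∀ s ≤ l, k < b s → a s ∈ J) :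
    l + 1 + #Z * k ≤ ∑ j ∈ J, (2 * k - j) + k * (k + 1) := by
  have e1 : #((range (l + 1)).image fun t => (a t, b t)) = l + 1 := by
    rw [card_image_of_injOn, card_range]
    intro s g1 t g2 g
    simp only [coe_range, Set.mem_Iio, Prod.mk.injEq] at g1 g2 g
    exact h.inj s t (by omega) (by omega) g.1 g.2
  have e2 : #(Z ×ˢ Ioc 0 k) = #Z * k := by simp
  have e3 : #(range k ×ˢ range (k + 1)) = k * (k + 1) := by simp
  have e4 : #(J.biUnion fun j => {j} ×ˢ Ioc k (3 * k - j)) ≤ ∑ j ∈ J, (2 * k - j) :=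
    card_biUnion_le.trans (sum_le_sum fun j _ => by simp; omega)
  rw [← e1, ← e2, ← e3, ← card_union_of_disjoint]
  · refine le_trans ?_ (Nat.add_le_add_right e4 _)
    refine (card_le_card ?_).trans (card_union_le _ _)
    rintro ⟨x, y⟩ g
    simp only [mem_union, mem_image, mem_range, mem_product, mem_Ioc, mem_biUnion, mem_singleton,
      Prod.mk.injEq] at g ⊢
    rcases g with ⟨t, g1, rfl, rfl⟩ | g
    · have := h.mem t (by omega)
      by_cases g : k < b t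
      · exact Or.inl ⟨_, h2 t (by omega) g, rfl, g, by omega⟩
      · exact Or.inr (by omega)
    · exact Or.inr ⟨mem_range.1 (hZ g.1), by omega⟩
  · rw [disjoint_left]
    rintro ⟨x, y⟩ g g'
    simp only [mem_image, mem_range, mem_product, mem_Ioc, Prod.mk.injEq] at g g'
    obtain ⟨t, g1, rfl, rfl⟩ := g
    exact h1 t (by omega) g'

lemma Pa.top (h : Pa k l a b) (h0 : k < b 0) (h1 : 1 ≤ a 0) (h2 : a 0 + 2 ≤ k)
    (hl : l = 2 * (2 * k - a 0) + k * k) : a l + 1 = a 0 ∧ k < b l := by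
  have kk : k * (k + 1) = k * k + k := by ring
  by_cases g : k < b l ∧ a 0 ≠ a l
  swap
  · have := h.card ∅ (by simp) {a 0} (by simp) fun s g1 g2 => by
      have := h.only s g1 g2
      rw [mem_singleton]; omega
    simp only [card_empty, sum_singleton] at this
    omega
  refine ⟨?_, g.1⟩
  by_contra hc
  have m := h.mem l le_rfl
  obtain ⟨c, c1, c2, c3⟩ := h.miss (by omega) h0 g.1 g.2
  obtain ⟨d, d1, d2, d3⟩ := h.rev.miss (by omega) (by simpa using g.1) (by simpa using h0)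
    (by simpa using g.2.symm)
  simp only [Nat.sub_zero] at d2
  have := h.card {c, d} (by simp [insert_subset_iff, c1, d1]) {a 0, a l} (fun s g1 g2 => by
    rcases mem_insert.1 g2.1 with e | e
    · exact c3 s g1 ⟨e, g2.2⟩
    · refine d3 (l - s) (by omega) ?_
      simp only [show l - (l - s) = s by omega]
      exact ⟨mem_singleton.1 e, g2.2⟩) fun s g1 g2 => by
    have := h.only s g1 g2
    rw [mem_insert, mem_singleton]; omega
  rw [sum_pair g.2] at this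
  by_cases e : c = d
  · subst e
    simp only [mem_singleton, insert_eq_of_mem, card_singleton] at this
    omega
  · rw [card_pair e] at this
    omega

end Pool.Agent.H.MP_5904a2_co
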