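import Pool.Agent.H.MP_5904a2_co.A

namespace Pool.Agent.H.MP_5904a2_co
open Finset

lemma long (k i u : ℕ) (h1 : 1 ≤ i) (h2 : i + 2 ≤ k) (h3 : k < u) (h4 : i + u ≤ 3 * k) :
    ∃ a b, Pa k (2 * (2 * k - i) + k * k) a b ∧ a 0 = i ∧ b 0 = u := by
  obtain ⟨P, hP⟩ : ∃ P, P + i = 2 * k := ⟨2 * k - i, by omega⟩
  obtain ⟨M, hM⟩ : ∃ M, M + 1 = k * k := ⟨k * k - 1, by have : 0 < k * k := by nlinarith
                                                        omega⟩
  have hM' : M = (k + 1) * (k - 1) := by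
    obtain ⟨k, rfl⟩ : ∃ j, k = j + 1 := ⟨k - 1, by omega⟩
    simp only [Nat.add_sub_cancel]; nlinarith
  let q : ℕ → ℕ := fun s => s / (k + 1)
  let r : ℕ → ℕ := fun s => s % (k + 1)
  have hr : ∀ s, r s ≤ k := fun s => Nat.lt_succ_iff.1 (Nat.mod_lt _ (by omega))
  have hqr : ∀ s, (k + 1) * q s + r s = s := fun s => Nat.div_add_mod _ _
  have hq : ∀ s ≤ M, q s ≤ k - 1 := fun s g => Nat.div_le_of_le_mul (hM' ▸ g)
  have hs : ∀ s, (q (s + 1) = q s ∧ r (s + 1) = r s + 1) ∨
      (q (s + 1) = q s + 1 ∧ r (s + 1) = 0 ∧ r s = k) := fun s => by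
    have e1 := hqr s
    have e2 := hqr (s + 1)
    have e3 := hr s
    have e4 : q (s + 1) = q s + _ := Nat.succ_div
    split_ifs at e4 with g
    · have : r (s + 1) = 0 := Nat.mod_eq_zero_of_dvd g
      rw [e4, mul_add] at e2
      omega
    · rw [e4, add_zero] at e2
      omega
  have hE : q M = k - 1 ∧ r M = 0 := by
    simp only [q, r, hM']
    exact ⟨Nat.mul_div_cancel_left _ (by omega), Nat.mul_mod_right _ _⟩
  have h0 : q 0 = 0 ∧ r 0 = 0 := by simp [q, r]
  have hi : ∀ s t, q s = q t → r s = r t → s = t := fun s t g1 g2 => by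
    rw [← hqr s, ← hqr t, g1, g2]
  clear_value q r
  clear hM' hqr
  refine ⟨fun s => if s < P then i else if s ≤ P + M then
      (if i + q (s - P) < k then i + q (s - P) else i + q (s - P) - k) else i - 1,
    fun s => if s < P then (if s = 0 then u else if k + s < u then k + s else k + s + 1)
      else if s ≤ P + M then r (s - P) else k + (s - (P + M)),
    ⟨fun t g => ?_, fun s t g1 g2 g3 g4 => ?_, fun t g => ?_⟩, by simp; omega, by simp; omega⟩
  · rcases lt_trichotomy (t + 1) P with c | c | c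
    · simp only [if_pos c, if_pos (show t < P by omega), if_neg (show ¬ t + 1 = 0 by omega)]
      refine ⟨?_, Or.inr (Or.inl ⟨rfl, ?_⟩)⟩ <;> split_ifs <;> omega
    · simp only [c, Nat.sub_self, h0.1, h0.2, if_pos (show t < P by omega), lt_irrefl, if_false,
        if_pos (show P ≤ P + M by omega), if_pos (show i + 0 < k by omega)]
      refine ⟨fun h => ?_, Or.inr (Or.inl ⟨rfl, Or.inr (Or.inl rfl)⟩)⟩
      have h := h.2
      split_ifs at h <;> omega
    · simp only [show t + 1 - P = t - P + 1 by omega, if_neg (show ¬ t < P by omega),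
        if_neg (show ¬ t + 1 < P by omega)]
      rcases lt_trichotomy t (P + M) with e | e | e
      · simp only [if_pos e.le, if_pos (show t + 1 ≤ P + M by omega)]
        have k1 := hq (t - P) (by omega)
        have k2 := hq (t - P + 1) (by omega)
        have k3 := hr (t - P)
        have k4 := hr (t - P + 1)
        rcases hs (t - P) with k5 | k5
        · rw [k5.1]
          exact ⟨by omega, Or.inr (Or.inl ⟨rfl, by omega⟩)⟩
        · refine ⟨by omega, Or.inr (Or.inr (Or.inl ⟨k5.2.1, k3, ?_⟩))⟩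
          split_ifs <;> omega
      · simp only [e, Nat.add_sub_cancel_left, hE.1, hE.2, le_refl, if_true,
          if_neg (show ¬ P + M + 1 ≤ P + M by omega), if_neg (show ¬ i + (k - 1) < k by omega)]
        exact ⟨by omega, Or.inr (Or.inl ⟨by omega, Or.inl rfl⟩)⟩
      · simp only [if_neg e.not_ge, if_neg (show ¬ t + 1 ≤ P + M by omega)]
        exact ⟨by omega, Or.inr (Or.inl ⟨rfl, by omega⟩)⟩
  · have := hi (s - P) (t - P)
    have := hq (s - P)
    have := hq (t - P)
    have := hr (s - P)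
    have := hr (t - P)
    split_ifs at g3 g4 <;> omega
  · have := hq (t - P)
    have := hr (t - P)
    split_ifs <;> omega

def F (k : ℕ) : Finset (ℕ × ℕ) := (range k ×ˢ range (3 * k + 1)).filter fun p => p.1 + p.2 ≤ 3 * k

lemma mem_F {k : ℕ} {p : ℕ × ℕ} : p ∈ F k ↔ p.1 < k ∧ p.1 + p.2 ≤ 3 * k := by
  simp [F]; omega

def G (k : ℕ) : SimpleGraph (F k) where
  Adj p q := A k p.1.1 p.1.2 q.1.1 q.1.2
  symm := ⟨fun _ _ => A.symm⟩
  loopless := ⟨fun _ h => h.1 ⟨rfl, rfl⟩⟩

lemma fp_ge (k : ℕ) (i : ℕ) (h2 : i + 2 ≤ k) (S : Finset (F k)) (u : F k) (h3 : u.1.1 = i)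
    (h4 : k < u.1.2) (h5 : k ≤ #S + i + 1) (h6 : ∀ x ∈ S, i ≤ x.1.1) :
    Force (fun u l x => ∃ p : (G k).Walk u x, p.IsPath ∧ p.length = l) (k - 1) S u := by
  induction i generalizing S u with
  | zero => exact .done _ _ (by omega)
  | succ i ih =>
    refine .step _ _ (2 * (2 * k - (i + 1)) + k * k) (by omega) ?_ fun x ⟨p, p1, p2⟩ => ?_
    · obtain ⟨a, b, h, a0, b0⟩ := long k (i + 1) u.1.2 (by omega) h2 h4 (h3 ▸ (mem_F.1 u.2).2)
      generalize 2 * (2 * k - (i + 1)) + k * k = l at h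
      obtain ⟨p, p1, p2⟩ := mkwalk (G k) l (fun t => if g : t ≤ l then
        ⟨(a t, b t), mem_F.2 (h.mem t g)⟩ else u) fun t g => by
          rw [dif_pos g.le, dif_pos (by omega)]; exact h.adj t g
      refine ⟨_, p.copy (Subtype.ext (Prod.ext ?_ ?_)) rfl, ?_, by simpa using p1⟩
      · simp [a0, h3]
      · simp [b0]
      · rw [SimpleGraph.Walk.isPath_copy, ← SimpleGraph.Walk.IsPath.getVert_injOn_iff, p1]
        intro s g1 t g2 g
        rw [p2 s g1, p2 t g2, dif_pos (show s ≤ l from g1), dif_pos (show t ≤ l from g2),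
           Subtype.mk.injEq, Prod.mk.injEq] at g
        exact h.inj s t g1 g2 g.1 g.2
    · have h : Pa k p.length (fun t => (p.getVert t).1.1) fun t => (p.getVert t).1.2 :=
        ⟨fun t g => p.adj_getVert_succ g,
          fun s t g1 g2 g3 g4 => p1.getVert_injOn g1 g2 (Subtype.ext (Prod.ext g3 g4)),
          fun t _ => mem_F.1 (p.getVert t).2⟩
      have := h.top (by simpa using h4) (by simp [h3]) (by simpa [h3] using h2)
        (by simpa [h3] using p2)
      simp only [p.getVert_length, p.getVert_zero] at this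
      refine ih (by omega) _ x (by omega) this.2 ?_ fun y g => ?_
      · rw [card_insert_of_notMem fun g => by have := h6 x g; omega]; omega
      · rcases mem_insert.1 g with rfl | g
        · omega
        · have := h6 y g; omega

/-- the core vertex of the level of `x` -/
def w {k : ℕ} (x : F k) : F k := ⟨(x.1.1, 0), by have := mem_F.1 x.2; rw [mem_F]; simp; omega⟩

lemma adj1 {k : ℕ} (x : F k) : x = w x ∨ (G k).Adj x (w x) := by
  by_cases h : x.1.2 = 0
  · exact Or.inl (Subtype.ext (Prod.ext rfl h))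
  · exact Or.inr (by simp [G, A, w, h])

lemma adj2 {k : ℕ} (x y : F k) : w x = w y ∨ (G k).Adj (w x) (w y) := by
  by_cases h : x.1.1 = y.1.1
  · exact Or.inl (Subtype.ext (Prod.ext h rfl))
  · exact Or.inr (by simp [G, A, w, h])

lemma conn (k : ℕ) (h : 1 ≤ k) : (G k).Connected := by
  have : Nonempty (F k) := ⟨⟨(0, 0), mem_F.2 (by simp; omega)⟩⟩
  have e : ∀ {x y}, x = y ∨ (G k).Adj x y → (G k).Reachable x y := fun g =>
    g.elim (fun g => g ▸ .refl _) fun g => g.reachable
  exact ⟨fun x y => ((e (adj1 x)).trans (e (adj2 x y))).trans (e (adj1 y)).symm⟩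

lemma dists {k : ℕ} (h : 1 ≤ k) (x y : F k) : (G k).dist x y ≤ 3 ∧ (G k).dist (w x) y ≤ 2 := by
  have e : ∀ {x y}, x = y ∨ (G k).Adj x y → (G k).dist x y ≤ 1 := fun g =>
    g.elim (fun g => by simp [g]) fun g => (SimpleGraph.dist_eq_one_iff_adj.2 g).le
  have e1 := (conn k h).dist_triangle (u := x) (v := w x) (w := y)
  have e2 := (conn k h).dist_triangle (u := w x) (v := w y) (w := y)
  have e3 := e (adj1 x)
  have e4 := e (adj2 x y)
  have e5 := e (adj1 y)
  rw [SimpleGraph.dist_comm] at e5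
  omega

lemma exact {k : ℕ} (h : 1 ≤ k) (x y : F k) (h1 : k < x.1.2) (h2 : k < y.1.2)
    (h3 : x.1.1 ≠ y.1.1) : (G k).dist x (w x) = 1 ∧ (G k).dist x (w y) = 2 ∧ (G k).dist x y = 3 := by
  have e : ∀ {x y : F k}, x.1.1 ≠ y.1.1 → (G k).dist x y ≠ 0 := fun g e => g (by
    rw [((conn k h).dist_eq_zero_iff).1 e])
  have e1 := e h3
  have e2 := e (x := x) (y := w y) h3
  have e3 := (dists h x y).1
  have e4 := (dists h y x).2
  rw [SimpleGraph.dist_comm] at e4
  have e5 : (G k).dist x y ≠ 1 := fun g => by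
    have := SimpleGraph.dist_eq_one_iff_adj.1 g
    simp only [G, A] at this; omega
  have e6 : (G k).dist x (w y) ≠ 1 := fun g => by
    have := SimpleGraph.dist_eq_one_iff_adj.1 g
    simp only [G, A, w] at this; omega
  have e7 : (G k).dist x y ≠ 2 := fun g => by
    obtain ⟨p, hp⟩ := (conn k h).exists_walk_length_eq_dist x y
    have k1 := p.adj_getVert_succ (i := 0) (by omega)
    have k2 := p.adj_getVert_succ (i := 1) (by omega)
    rw [p.getVert_of_length_le (i := 1 + 1) (by omega)] at k2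
    rw [p.getVert_zero] at k1
    simp only [G, A, zero_add] at k1 k2; omega
  exact ⟨SimpleGraph.dist_eq_one_iff_adj.2 ((adj1 x).resolve_left fun g => by
    have := congrArg (·.1.2) g; simp [w] at this; omega), by omega, by omega⟩

lemma fd_le {k : ℕ} (h : 1 ≤ k) (x y : F k) (h1 : k < x.1.2) (h2 : k < y.1.2)
    (h3 : x.1.1 ≠ y.1.1) : fd (G k) x ≤ 4 := by
  refine (value_le {x, y, w x, w y} (fun u hu l g ⟨z, hz⟩ => ?_) (by simp)).trans card_le_four
  obtain ⟨a1, a2, a3⟩ := exact h x y h1 h2 h3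
  obtain ⟨b1, b2, b3⟩ := exact h y x h2 h1 h3.symm
  have c1 := a1; have c2 := a2; have c3 := b1; have c4 := b2
  rw [SimpleGraph.dist_comm] at c1 c2 c3 c4
  simp only [mem_insert, mem_singleton, exists_eq_or_imp, exists_eq_left] at hu ⊢
  rcases hu with rfl | rfl | rfl | rfl
  · have := (dists h u z).1; omega
  · have := (dists h u z).1; omega
  · have := (dists h x z).2; omega
  · have := (dists h y z).2; omega

theorem main (c : ℝ) : ∃ (V : Type) (_ : Fintype V) (_ : DecidableEq V) (G : SimpleGraph V)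
    (v : V), G.Connected ∧ c < (fp G v : ℝ) / fd G v := by
  obtain ⟨n, hn⟩ := exists_nat_gt c
  let x : F (4 * n + 3) := ⟨(4 * n + 1, 4 * n + 4), mem_F.2 (by simp; omega)⟩
  let y : F (4 * n + 3) := ⟨(0, 4 * n + 4), mem_F.2 (by simp; omega)⟩
  refine ⟨F (4 * n + 3), inferInstance, inferInstance, G _, x, conn _ (by omega), hn.trans_le ?_⟩
  have h1 : fd (G _) x ≤ 4 := fd_le (by omega) x y (by simp [x]) (by simp [y]) (by simp [x, y])
  have h2 : 1 ≤ fd (G _) x := le_value (.done _ _ (by simp))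
  have h3 : 4 * n + 3 - 1 ≤ fp (G _) x := le_value (fp_ge _ (4 * n + 1) le_rfl _ x rfl
    (by simp [x]) (by simp; omega) (by simp [x]))
  rw [le_div_iff₀ (by exact_mod_cast h2)]
  exact_mod_cast (by nlinarith [Nat.mul_le_mul_left n h1, show 4 * n ≤ fp (G _) x by omega] :
    n * fd (G _) x ≤ fp (G _) x)

end Pool.Agent.H.MP_5904a2_co
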