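import Mathlib

namespace Pool.Agent.H.MP_5904a2_co
open Finset

variable {V : Type} [DecidableEq V]

/-- `R u l x`: after the call `l` at `u` the Director may move the token to `x`.
`Force R m S u`: with visited set `S` and the token at `u`, the Explorer can force that after
finitely many rounds at least `m` vertices have been visited. -/
inductive Force (R : V → ℕ → V → Prop) (m : ℕ) : Finset V → V → Prop
  | done (S : Finset V) (u : V) : m ≤ #S → Force R m S u
  | step (S : Finset V) (u : V) (l : ℕ) : 1 ≤ l → (∃ x, R u l x) →
      (∀ x, R u l x → Force R m (insert x S) x) → Force R m S u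

/-- value of the game started at `v` -/
noncomputable def value (R : V → ℕ → V → Prop) (v : V) : ℕ := sSup {m | Force R m {v} v}

/-- value of the distance game -/
noncomputable def fd (G : SimpleGraph V) (v : V) : ℕ := value (fun u d x => G.dist u x = d) v

/-- value of the path variant -/
noncomputable def fp (G : SimpleGraph V) (v : V) : ℕ :=
  value (fun u l x => ∃ p : G.Walk u x, p.IsPath ∧ p.length = l) v

end Pool.Agent.H.MP_5904a2_co
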